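import Mathlib

set_option autoImplicit false

/-!
# Gaussian localisation lemma (helper57, task N7 of helper295)

If the Laplace transform `F` of `f` continues analytically to a neighbourhood of a rectangle
`[-r/2, η] × [-r, r]`, then the Gaussian averages of `f` with centre `μ` and variance `δ μ` are
exponentially small.
-/

open MeasureTheory Filter Topology Set

namespace Pool.Agent.H57R2.NicK

noncomputable section

/-- the Gaussian -/
def Gs (V μ v : ℝ) : ℝ := Real.exp (-(v - μ) ^ 2 / (2 * V))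

/-- its Laplace transform, up to normalisation -/
def Ez (V μ : ℝ) (z : ℂ) : ℂ := Complex.exp (μ * z + V * z ^ 2 / 2)

theorem Ez_diff (V μ : ℝ) : Differentiable ℂ (Ez V μ) := by
  unfold Ez
  fun_prop

theorem Ez_cont (V μ : ℝ) : Continuous (Ez V μ) := (Ez_diff V μ).continuous

theorem norm_Ez (V μ : ℝ) (x y : ℝ) : ‖Ez V μ ((x : ℂ) + (y : ℂ) * Complex.I)‖ =
    Real.exp (μ * x + V * (x ^ 2 - y ^ 2) / 2) := by
  unfold Ez
  rw [Complex.norm_exp]
  congr 1
  have : ((μ : ℂ) * ((x : ℂ) + (y : ℂ) * Complex.I) +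
      (V : ℂ) * ((x : ℂ) + (y : ℂ) * Complex.I) ^ 2 / 2) =
      ((μ * x + V * (x ^ 2 - y ^ 2) / 2 : ℝ) : ℂ) + ((μ * y + V * x * y : ℝ) : ℂ) * Complex.I := by
    push_cast
    have hI := Complex.I_sq
    linear_combination (V * y ^ 2 / 2 : ℂ) * hI
  rw [this, Complex.add_re, Complex.ofReal_re, Complex.re_ofReal_mul, Complex.I_re, mul_zero,
    add_zero]

theorem gauss_id (V μ η v : ℝ) (hV : 0 < V) :
    ∫ y : ℝ, Complex.exp (-((η : ℂ) + (y : ℂ) * Complex.I) * v) *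
      Ez V μ ((η : ℂ) + (y : ℂ) * Complex.I) = (Real.sqrt (2 * Real.pi / V) : ℂ) * (Gs V μ v : ℂ) := by
  have e1 : (fun y : ℝ => Complex.exp (-((η : ℂ) + (y : ℂ) * Complex.I) * v) *
      Ez V μ ((η : ℂ) + (y : ℂ) * Complex.I)) = fun y : ℝ =>
      Complex.exp ((-(V / 2 : ℝ) : ℂ) * (y : ℂ) ^ 2 + (((μ - v + V * η : ℝ) : ℂ) * Complex.I) * y +
        (((μ - v) * η + V * η ^ 2 / 2 : ℝ) : ℂ)) := by
    funext y
    unfold Ez
    rw [← Complex.exp_add]
    congr 1
    push_cast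
    have hI := Complex.I_sq
    linear_combination (V * y ^ 2 / 2 : ℂ) * hI
  rw [e1, integral_cexp_quadratic]
  · have hpos : (0 : ℝ) ≤ 2 * Real.pi / V := by positivity
    have e2 : ((Real.pi : ℂ) / -(-(V / 2 : ℝ) : ℂ)) ^ (1 / 2 : ℂ) =
        (Real.sqrt (2 * Real.pi / V) : ℂ) := by
      rw [Real.sqrt_eq_rpow, Complex.ofReal_cpow hpos]
      congr 1
      · push_cast
        field_simp
      · push_cast; rfl
    rw [e2]
    congr 1
    unfold Gs
    rw [Complex.ofReal_exp]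
    congr 1
    have hV' : (V : ℂ) ≠ 0 := by exact_mod_cast hV.ne'
    push_cast
    rw [mul_pow, Complex.I_sq]
    field_simp
    ring
  · simp; linarith

theorem Ez_integrable (V μ η : ℝ) (hV : 0 < V) :
    Integrable (fun y : ℝ => Ez V μ ((η : ℂ) + (y : ℂ) * Complex.I)) := by
  have e1 : (fun y : ℝ => Ez V μ ((η : ℂ) + (y : ℂ) * Complex.I)) = fun y : ℝ =>
      Complex.exp (-((V / 2 : ℝ) : ℂ) * (y : ℂ) ^ 2 + (((μ + V * η : ℝ) : ℂ) * Complex.I) * y +
        ((μ * η + V * η ^ 2 / 2 : ℝ) : ℂ)) := by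
    funext y
    unfold Ez
    congr 1
    push_cast
    have hI := Complex.I_sq
    linear_combination (V * y ^ 2 / 2 : ℂ) * hI
  rw [e1]
  apply integrable_cexp_quadratic
  simp; linarith

/-- Fubini -/
theorem swap (f : ℝ → ℂ) (V μ η : ℝ) (hV : 0 < V)
    (hf : IntegrableOn (fun v : ℝ => f v * Complex.exp (-(η : ℂ) * v)) (Ioi 0)) :
    (Real.sqrt (2 * Real.pi / V) : ℂ) * ∫ v in Ioi (0 : ℝ), f v * (Gs V μ v : ℂ) =
      ∫ y : ℝ, (∫ v in Ioi (0 : ℝ), f v * Complex.exp (-((η : ℂ) + (y : ℂ) * Complex.I) * v)) *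
        Ez V μ ((η : ℂ) + (y : ℂ) * Complex.I) := by
  have hE := Ez_integrable V μ η hV
  have e1 : (Real.sqrt (2 * Real.pi / V) : ℂ) * ∫ v in Ioi (0 : ℝ), f v * (Gs V μ v : ℂ) =
      ∫ v in Ioi (0 : ℝ), ∫ y : ℝ, f v * (Complex.exp (-((η : ℂ) + (y : ℂ) * Complex.I) * v) *
        Ez V μ ((η : ℂ) + (y : ℂ) * Complex.I)) := by
    rw [← integral_const_mul]
    refine integral_congr_ae (Eventually.of_forall fun v => ?_)
    simp only
    rw [integral_const_mul, gauss_id V μ η v hV]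
    ring
  rw [e1, integral_integral_swap]
  · refine integral_congr_ae (Eventually.of_forall fun y => ?_)
    simp only
    rw [← integral_mul_const]
    refine integral_congr_ae (Eventually.of_forall fun v => ?_)
    simp only
    ring
  · have h1 : Integrable (fun p : ℝ × ℝ => (f p.1 * Complex.exp (-(η : ℂ) * p.1)) *
        Ez V μ ((η : ℂ) + (p.2 : ℂ) * Complex.I)) ((volume.restrict (Ioi 0)).prod volume) :=
      hf.mul_prod hE
    have h2 : Function.uncurry (fun (v y : ℝ) =>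
        f v * (Complex.exp (-((η : ℂ) + (y : ℂ) * Complex.I) * v) *
          Ez V μ ((η : ℂ) + (y : ℂ) * Complex.I))) = fun p : ℝ × ℝ =>
        Complex.exp (-((p.2 : ℂ) * Complex.I) * p.1) * ((f p.1 * Complex.exp (-(η : ℂ) * p.1)) *
        Ez V μ ((η : ℂ) + (p.2 : ℂ) * Complex.I)) := by
      funext p
      simp only [Function.uncurry]
      have : Complex.exp (-((η : ℂ) + (p.2 : ℂ) * Complex.I) * p.1) =
          Complex.exp (-((p.2 : ℂ) * Complex.I) * p.1) * Complex.exp (-(η : ℂ) * p.1) := by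
        rw [← Complex.exp_add]; congr 1; ring
      rw [this]; ring
    rw [h2]
    refine h1.bdd_mul (c := 1) ?_ (Eventually.of_forall fun p => ?_)
    · apply Continuous.aestronglyMeasurable
      fun_prop
    · have : (-((p.2 : ℂ) * Complex.I) * p.1) = ((-(p.2 * p.1) : ℝ) : ℂ) * Complex.I := by
        push_cast; ring
      rw [this, Complex.norm_exp_ofReal_mul_I]

theorem norm_A (f : ℝ → ℂ) (η : ℝ) (y : ℝ) :
    ‖∫ v in Ioi (0 : ℝ), f v * Complex.exp (-((η : ℂ) + (y : ℂ) * Complex.I) * v)‖ ≤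
      ∫ v in Ioi (0 : ℝ), ‖f v * Complex.exp (-(η : ℂ) * v)‖ := by
  refine (norm_integral_le_integral_norm _).trans (le_of_eq ?_)
  refine integral_congr_ae (Eventually.of_forall fun v => ?_)
  simp only
  have : Complex.exp (-((η : ℂ) + (y : ℂ) * Complex.I) * v) =
      Complex.exp (-(η : ℂ) * v) * Complex.exp (((-(y * v) : ℝ) : ℂ) * Complex.I) := by
    rw [← Complex.exp_add]; congr 1; push_cast; ring
  rw [this, ← mul_assoc, norm_mul (f v * _), Complex.norm_exp_ofReal_mul_I, mul_one]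

/-- the part `|y| > r` -/
theorem outer (g : ℝ → ℂ) (V μ η r B : ℝ) (hV : 0 < V) (_hr : 0 < r) (hB : 0 ≤ B)
    (hg : ∀ y, ‖g y‖ ≤ B) :
    ‖∫ y in (Ioc (-r) r)ᶜ, g y * Ez V μ ((η : ℂ) + (y : ℂ) * Complex.I)‖ ≤
      B * Real.exp (μ * η + V * η ^ 2 / 2 - V * r ^ 2 / 4) * Real.sqrt (4 * Real.pi / V) := by
  have hb : ∀ y ∈ (Ioc (-r) r)ᶜ, ‖g y * Ez V μ ((η : ℂ) + (y : ℂ) * Complex.I)‖ ≤
      B * Real.exp (μ * η + V * η ^ 2 / 2 - V * r ^ 2 / 4) * Real.exp (-(V / 4) * y ^ 2) := by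
    intro y hy
    have hy2 : r ^ 2 ≤ y ^ 2 := by
      rw [mem_compl_iff, mem_Ioc, not_and_or, not_lt, not_le] at hy
      rcases hy with h | h <;> nlinarith
    rw [norm_mul, norm_Ez, mul_assoc, ← Real.exp_add]
    apply mul_le_mul (hg y) _ (Real.exp_pos _).le hB
    rw [Real.exp_le_exp]
    nlinarith
  have hint : Integrable (fun y : ℝ => B * Real.exp (μ * η + V * η ^ 2 / 2 - V * r ^ 2 / 4) *
      Real.exp (-(V / 4) * y ^ 2)) :=
    (integrable_exp_neg_mul_sq (by linarith)).const_mul _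
  calc ‖∫ y in (Ioc (-r) r)ᶜ, g y * Ez V μ ((η : ℂ) + (y : ℂ) * Complex.I)‖
      ≤ ∫ y in (Ioc (-r) r)ᶜ, B * Real.exp (μ * η + V * η ^ 2 / 2 - V * r ^ 2 / 4) *
          Real.exp (-(V / 4) * y ^ 2) := by
        apply norm_integral_le_of_norm_le hint.integrableOn
        exact (ae_restrict_iff' (measurableSet_Ioc.compl)).2 (Eventually.of_forall hb)
    _ ≤ ∫ y : ℝ, B * Real.exp (μ * η + V * η ^ 2 / 2 - V * r ^ 2 / 4) *
          Real.exp (-(V / 4) * y ^ 2) := by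
        apply setIntegral_le_integral hint (Eventually.of_forall fun y => by positivity)
    _ = _ := by
        rw [integral_const_mul, integral_gaussian]
        congr 2
        field_simp

/-- the rectangle -/
theorem inner (F : ℂ → ℂ) (V μ η r D : ℝ) (hV : 0 < V) (hμ : 0 ≤ μ) (hr : 0 < r) (hη : 0 < η)
    (hηr : η ≤ r / 2) (hF : DifferentiableOn ℂ F (Icc (-(r / 2)) η ×ℂ Icc (-r) r))
    (hD : ∀ z ∈ (Icc (-(r / 2)) η ×ℂ Icc (-r) r), ‖F z‖ ≤ D) :
    ‖∫ y in (-r)..r, F ((η : ℂ) + (y : ℂ) * Complex.I) * Ez V μ ((η : ℂ) + (y : ℂ) * Complex.I)‖ ≤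
      2 * r * D * Real.exp (-(μ * r / 2) + V * r ^ 2 / 8) +
        2 * (η + r / 2) * D * Real.exp (μ * η - 3 * V * r ^ 2 / 8) := by
  have hle : -(r / 2) ≤ η := by linarith
  have hle' : -r ≤ r := by linarith
  have hD0 : 0 ≤ D := by
    have := hD ((η : ℂ) + ((0 : ℝ) : ℂ) * Complex.I) (by
      rw [Complex.mem_reProdIm]
      simp
      exact ⟨by linarith, by linarith⟩)
    exact (norm_nonneg _).trans this
  set g : ℂ → ℂ := fun z => F z * Ez V μ z with hg
  have hgd : DifferentiableOn ℂ g (Icc (-(r / 2)) η ×ℂ Icc (-r) r) :=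
    hF.mul (Ez_diff V μ).differentiableOn
  have key := Complex.integral_boundary_rect_eq_zero_of_differentiableOn g
    (⟨-(r / 2), -r⟩ : ℂ) (⟨η, r⟩ : ℂ) (by
      simp only [uIcc_of_le hle, uIcc_of_le hle']
      exact hgd)
  simp only [smul_eq_mul] at key
  have hI : ∀ A B X Y : ℂ, A - B + Complex.I * X - Complex.I * Y = 0 →
      ‖X‖ ≤ ‖Y‖ + (‖A‖ + ‖B‖) := by
    intro A B X Y h
    have e1 : Complex.I * X = Complex.I * Y + (B - A) := by linear_combination h
    have e2 : ‖Complex.I * X‖ = ‖X‖ := by rw [norm_mul, Complex.norm_I, one_mul]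
    have e3 : ‖Complex.I * Y‖ = ‖Y‖ := by rw [norm_mul, Complex.norm_I, one_mul]
    rw [← e2, e1, ← e3]
    refine (norm_add_le _ _).trans ?_
    have := norm_sub_le B A
    linarith
  have h1 := hI _ _ _ _ key
  -- the left side
  have hL : ‖∫ y in (-r)..r, g (((-(r / 2) : ℝ) : ℂ) + (y : ℂ) * Complex.I)‖ ≤
      (D * Real.exp (-(μ * r / 2) + V * r ^ 2 / 8)) * |r - (-r)| := by
    apply intervalIntegral.norm_integral_le_of_norm_le_const
    intro y hy
    rw [uIoc_of_le hle'] at hy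
    rw [hg]
    simp only
    rw [norm_mul, norm_Ez]
    apply mul_le_mul _ _ (Real.exp_pos _).le hD0
    · apply hD
      rw [Complex.mem_reProdIm]
      simp
      exact ⟨by linarith, hy.1.le, hy.2⟩
    · rw [Real.exp_le_exp]
      nlinarith [sq_nonneg y]
  have hH : ∀ t : ℝ, t ^ 2 = r ^ 2 → (-r ≤ t ∧ t ≤ r) →
      ‖∫ x in (-(r / 2))..η, g ((x : ℂ) + (t : ℂ) * Complex.I)‖ ≤
      (D * Real.exp (μ * η - 3 * V * r ^ 2 / 8)) * |η - (-(r / 2))| := by
    intro t ht ht2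
    apply intervalIntegral.norm_integral_le_of_norm_le_const
    intro x hx
    rw [uIoc_of_le hle] at hx
    rw [hg]
    simp only
    rw [norm_mul, norm_Ez]
    apply mul_le_mul _ _ (Real.exp_pos _).le hD0
    · apply hD
      rw [Complex.mem_reProdIm]
      simp
      exact ⟨⟨hx.1.le, hx.2⟩, ht2⟩
    · rw [Real.exp_le_exp, ht]
      have hx2 : x ^ 2 ≤ r ^ 2 / 4 := by
        have h1 := hx.1
        have h2 := hx.2
        nlinarith
      have hx3 : μ * x ≤ μ * η := mul_le_mul_of_nonneg_left hx.2 hμ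
      nlinarith
  have hH1 := hH (-r) (by ring) ⟨le_rfl, hle'⟩
  have hH2 := hH r rfl ⟨hle', le_rfl⟩
  have a1 : |r - (-r)| = 2 * r := by rw [abs_of_pos (by linarith)]; ring
  have a2 : |η - (-(r / 2))| = η + r / 2 := by rw [abs_of_pos (by linarith)]; ring
  rw [a1] at hL
  rw [a2] at hH1 hH2
  have hX : ‖∫ y in (-r)..r, g ((η : ℂ) + (y : ℂ) * Complex.I)‖ ≤
      ‖∫ y in (-r)..r, g (((-(r / 2) : ℝ) : ℂ) + (y : ℂ) * Complex.I)‖ +
      (‖∫ x in (-(r / 2))..η, g ((x : ℂ) + ((-r : ℝ) : ℂ) * Complex.I)‖ +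
        ‖∫ x in (-(r / 2))..η, g ((x : ℂ) + (r : ℂ) * Complex.I)‖) := h1
  linarith

/-- numerical estimates -/
theorem final_num (r η δ μ B D V S : ℝ) (J : ℂ) (κ : ℝ) (hκ : κ = δ * r ^ 2 / 16) (hr : 0 < r)
    (hr1 : r ≤ 1 / 8) (hδ0 : 0 < δ) (hδ1 : δ ≤ 1) (hη : 0 < η) (hη1 : η ≤ κ) (hB0 : 0 ≤ B)
    (hD0 : 0 ≤ D) (hμ : 1 ≤ μ) (hV : V = δ * μ) (hS : S = Real.sqrt (2 * Real.pi / V))
    (hnorm : S * ‖J‖ ≤ (2 * r * D * Real.exp (-(μ * r / 2) + V * r ^ 2 / 8) +
        2 * (η + r / 2) * D * Real.exp (μ * η - 3 * V * r ^ 2 / 8)) +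
      B * Real.exp (μ * η + V * η ^ 2 / 2 - V * r ^ 2 / 4) * Real.sqrt (4 * Real.pi / V)) :
    ‖J‖ ≤ (2 * B + D / κ) * Real.exp (-κ * μ) := by
  have hμ0 : 0 < μ := by linarith
  have hV0 : 0 < V := by rw [hV]; positivity
  have hVμ : V ≤ μ := by rw [hV]; nlinarith
  have hκ0 : 0 < κ := by rw [hκ]; positivity
  have hκr : κ ≤ r / 16 := by
    rw [hκ]
    have : δ * r ^ 2 ≤ r := by nlinarith
    linarith
  have hη8 : η ≤ 1 / 8 := by linarith
  have hS0 : 0 < Real.sqrt (2 * Real.pi / V) := Real.sqrt_pos.2 (by positivity)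
  have hS1 : Real.sqrt (4 * Real.pi / V) ≤ 2 * Real.sqrt (2 * Real.pi / V) := by
    have : Real.sqrt (4 * Real.pi / V) = Real.sqrt 2 * Real.sqrt (2 * Real.pi / V) := by
      rw [← Real.sqrt_mul (by norm_num)]; congr 1; ring
    rw [this]
    apply mul_le_mul_of_nonneg_right _ hS0.le
    rw [Real.sqrt_le_left (by norm_num)]; norm_num
  have hS2 : 1 ≤ μ * Real.sqrt (2 * Real.pi / V) := by
    have h1 : 1 / μ ≤ 2 * Real.pi / V := by
      rw [div_le_div_iff₀ (by linarith) hV0]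
      have := Real.pi_gt_three
      nlinarith
    have h2 : (1 / μ) ^ 2 ≤ 2 * Real.pi / V := by
      refine le_trans ?_ h1
      have h3 : 1 / μ ≤ 1 := by rw [div_le_one (by linarith)]; exact hμ
      have h4 : 0 ≤ 1 / μ := by positivity
      nlinarith
    have h5 : 1 / μ ≤ Real.sqrt (2 * Real.pi / V) := Real.le_sqrt_of_sq_le h2
    calc (1 : ℝ) = μ * (1 / μ) := by field_simp
      _ ≤ _ := mul_le_mul_of_nonneg_left h5 (by linarith)
  -- exponents, all at most `-2 κ μ`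
  have x1 : -(μ * r / 2) + V * r ^ 2 / 8 ≤ -(2 * κ) * μ := by
    have h2 : V * r ^ 2 ≤ μ * r := by nlinarith [mul_pos hμ0 hr]
    have h3 : κ * 16 ≤ r := by linarith
    nlinarith
  have x2 : μ * η - 3 * V * r ^ 2 / 8 ≤ -(2 * κ) * μ := by
    have h2 : μ * η ≤ μ * κ := mul_le_mul_of_nonneg_left hη1 hμ0.le
    have h3 : 3 * V * r ^ 2 / 8 = 6 * κ * μ := by rw [hV, hκ]; ring
    rw [h3]; nlinarith [mul_pos hκ0 hμ0]
  have x3 : μ * η + V * η ^ 2 / 2 - V * r ^ 2 / 4 ≤ -κ * μ := by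
    have h2 : μ * η ≤ μ * κ := mul_le_mul_of_nonneg_left hη1 hμ0.le
    have h3 : V * r ^ 2 / 4 = 4 * κ * μ := by rw [hV, hκ]; ring
    have h4 : V * η ^ 2 / 2 ≤ μ * κ := by
      have h5 : η ^ 2 ≤ η := by nlinarith
      have h6 : V * η ^ 2 ≤ μ * η := by
        calc V * η ^ 2 ≤ μ * η ^ 2 := mul_le_mul_of_nonneg_right hVμ (sq_nonneg _)
          _ ≤ μ * η := mul_le_mul_of_nonneg_left h5 hμ0.le
      have := mul_pos hκ0 hμ0
      nlinarith
    rw [h3]; nlinarith [mul_pos hκ0 hμ0]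
  have hexp : Real.exp (-(2 * κ) * μ) * μ ≤ Real.exp (-κ * μ) / κ := by
    have h1 : κ * μ ≤ Real.exp (κ * μ) := by have := Real.add_one_le_exp (κ * μ); linarith
    have h2 : Real.exp (-(2 * κ) * μ) = Real.exp (-κ * μ) * Real.exp (-(κ * μ)) := by
      rw [← Real.exp_add]; congr 1; ring
    rw [h2, le_div_iff₀ hκ0]
    calc Real.exp (-κ * μ) * Real.exp (-(κ * μ)) * μ * κ
        = Real.exp (-κ * μ) * (Real.exp (-(κ * μ)) * (κ * μ)) := by ring
      _ ≤ Real.exp (-κ * μ) * (Real.exp (-(κ * μ)) * Real.exp (κ * μ)) := by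
          apply mul_le_mul_of_nonneg_left _ (Real.exp_pos _).le
          exact mul_le_mul_of_nonneg_left h1 (Real.exp_pos _).le
      _ = Real.exp (-κ * μ) := by rw [← Real.exp_add (-(κ * μ))]; simp
  rw [← hS] at hS0 hS1 hS2
  set ee := Real.exp (-(2 * κ) * μ) with hee
  have hee0 : 0 < ee := Real.exp_pos _
  have y1 : 2 * r * D * Real.exp (-(μ * r / 2) + V * r ^ 2 / 8) ≤ 2 * r * D * ee :=
    mul_le_mul_of_nonneg_left (Real.exp_le_exp.2 x1) (by positivity)
  have y2 : 2 * (η + r / 2) * D * Real.exp (μ * η - 3 * V * r ^ 2 / 8) ≤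
      2 * (η + r / 2) * D * ee :=
    mul_le_mul_of_nonneg_left (Real.exp_le_exp.2 x2) (by positivity)
  have y3 : B * Real.exp (μ * η + V * η ^ 2 / 2 - V * r ^ 2 / 4) * Real.sqrt (4 * Real.pi / V) ≤
      B * Real.exp (-κ * μ) * (2 * S) := by
    apply mul_le_mul _ hS1 (Real.sqrt_nonneg _) (by positivity)
    exact mul_le_mul_of_nonneg_left (Real.exp_le_exp.2 x3) hB0
  have y4 : 2 * r * D * ee + 2 * (η + r / 2) * D * ee ≤ D * ee := by
    have : 2 * r + 2 * (η + r / 2) ≤ 1 := by linarith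
    have h2 : 0 ≤ D * ee := by positivity
    calc 2 * r * D * ee + 2 * (η + r / 2) * D * ee = (2 * r + 2 * (η + r / 2)) * (D * ee) := by
          ring
      _ ≤ 1 * (D * ee) := mul_le_mul_of_nonneg_right this h2
      _ = D * ee := one_mul _
  have y5 : D * ee ≤ D * (ee * μ) * S := by
    have h2 : 0 ≤ D * ee := by positivity
    calc D * ee = D * ee * 1 := by ring
      _ ≤ D * ee * (μ * S) := mul_le_mul_of_nonneg_left hS2 h2
      _ = _ := by ring
  have y6 : D * (ee * μ) * S ≤ D * (Real.exp (-κ * μ) / κ) * S := by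
    apply mul_le_mul_of_nonneg_right _ hS0.le
    exact mul_le_mul_of_nonneg_left hexp hD0
  have fin : S * ‖J‖ ≤ S * ((2 * B + D / κ) * Real.exp (-κ * μ)) := by
    calc S * ‖J‖ ≤ D * (Real.exp (-κ * μ) / κ) * S + B * Real.exp (-κ * μ) * (2 * S) := by
          linarith
      _ = _ := by ring
  exact le_of_mul_le_mul_left fin hS0


/-- **Localisation lemma.** -/
theorem loc (f : ℝ → ℂ) (r η δ : ℝ) (hr : 0 < r) (hr1 : r ≤ 1 / 8) (hδ0 : 0 < δ) (hδ1 : δ ≤ 1)
    (hη : 0 < η) (hη1 : η ≤ δ * r ^ 2 / 16)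
    (hf : IntegrableOn (fun v : ℝ => f v * Complex.exp (-(η : ℂ) * v)) (Ioi 0)) (F : ℂ → ℂ)
    (hF : DifferentiableOn ℂ F (Icc (-(r / 2)) η ×ℂ Icc (-r) r))
    (hFf : ∀ y ∈ Icc (-r) r, F ((η : ℂ) + (y : ℂ) * Complex.I) =
      ∫ v in Ioi (0 : ℝ), f v * Complex.exp (-((η : ℂ) + (y : ℂ) * Complex.I) * v)) :
    ∃ C : ℝ, ∀ μ : ℝ, 1 ≤ μ →
      ‖∫ v in Ioi (0 : ℝ), f v * (Gs (δ * μ) μ v : ℂ)‖ ≤ C * Real.exp (-(δ * r ^ 2 / 16) * μ) := by
  set K : Set ℂ := Icc (-(r / 2)) η ×ℂ Icc (-r) r with hK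
  have hKc : IsCompact K := isCompact_Icc.reProdIm isCompact_Icc
  obtain ⟨D, hD⟩ := hKc.exists_bound_of_continuousOn hF.continuousOn
  set B := ∫ v in Ioi (0 : ℝ), ‖f v * Complex.exp (-(η : ℂ) * v)‖ with hB
  have hB0 : 0 ≤ B := integral_nonneg fun v => norm_nonneg _
  have hηr : η ≤ r / 2 := by nlinarith
  set κ := δ * r ^ 2 / 16 with hκ
  have hκ0 : 0 < κ := by positivity
  have hD0 : 0 ≤ D := by
    have := hD ((η : ℂ) + ((0 : ℝ) : ℂ) * Complex.I) (by
      rw [hK, Complex.mem_reProdIm]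
      simp
      exact ⟨by linarith, by linarith⟩)
    exact (norm_nonneg _).trans this
  refine ⟨2 * B + D / κ, fun μ hμ => ?_⟩
  set V := δ * μ with hV
  have hV0 : 0 < V := by positivity
  have hVμ : V ≤ μ := by rw [hV]; nlinarith
  have hs := swap f V μ η hV0 hf
  set A : ℝ → ℂ := fun y => ∫ v in Ioi (0 : ℝ), f v *
    Complex.exp (-((η : ℂ) + (y : ℂ) * Complex.I) * v) with hA
  have hAB : ∀ y, ‖A y‖ ≤ B := fun y => norm_A f η y
  -- integrability of `A E`
  have hE := Ez_integrable V μ η hV0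
  have hAE : Integrable (fun y : ℝ => A y * Ez V μ ((η : ℂ) + (y : ℂ) * Complex.I)) := by
    refine hE.bdd_mul (c := B) ?_ (Eventually.of_forall hAB)
    -- measurability of `A` : it is continuous
    have : Continuous A := by
      rw [hA]
      apply continuous_of_dominated (bound := fun v => ‖f v * Complex.exp (-(η : ℂ) * v)‖)
      · intro y
        have h2 : (fun v : ℝ => f v * Complex.exp (-((η : ℂ) + (y : ℂ) * Complex.I) * v)) =
            fun v : ℝ => (f v * Complex.exp (-(η : ℂ) * v)) *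
              Complex.exp (((-(y * v) : ℝ) : ℂ) * Complex.I) := by
          funext v
          rw [mul_assoc, ← Complex.exp_add]; congr 2; push_cast; ring
        rw [h2]
        exact hf.aestronglyMeasurable.mul (Continuous.aestronglyMeasurable (by fun_prop))
      · intro y
        refine Eventually.of_forall fun v => ?_
        have : Complex.exp (-((η : ℂ) + (y : ℂ) * Complex.I) * v) =
            Complex.exp (-(η : ℂ) * v) * Complex.exp (((-(y * v) : ℝ) : ℂ) * Complex.I) := by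
          rw [← Complex.exp_add]; congr 1; push_cast; ring
        rw [this, ← mul_assoc, norm_mul (f v * _), Complex.norm_exp_ofReal_mul_I, mul_one]
      · exact hf.norm
      · refine Eventually.of_forall fun v => ?_
        fun_prop
    exact this.aestronglyMeasurable
  rw [← integral_add_compl (measurableSet_Ioc (a := -r) (b := r)) hAE] at hs
  have hout := outer A V μ η r B hV0 hr hB0 hAB
  have hin := inner F V μ η r D hV0 (by linarith) hr hη hηr hF hD
  have hcong : ∫ y in Ioc (-r) r, A y * Ez V μ ((η : ℂ) + (y : ℂ) * Complex.I) =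
      ∫ y in (-r)..r, F ((η : ℂ) + (y : ℂ) * Complex.I) *
        Ez V μ ((η : ℂ) + (y : ℂ) * Complex.I) := by
    rw [intervalIntegral.integral_of_le (by linarith)]
    refine setIntegral_congr_fun measurableSet_Ioc fun y hy => ?_
    rw [hFf y ⟨hy.1.le, hy.2⟩]
  rw [hcong] at hs
  set J := ∫ v in Ioi (0 : ℝ), f v * (Gs V μ v : ℂ) with hJ
  set S := Real.sqrt (2 * Real.pi / V) with hS
  have hnorm : S * ‖J‖ ≤
      (2 * r * D * Real.exp (-(μ * r / 2) + V * r ^ 2 / 8) +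
        2 * (η + r / 2) * D * Real.exp (μ * η - 3 * V * r ^ 2 / 8)) +
      B * Real.exp (μ * η + V * η ^ 2 / 2 - V * r ^ 2 / 4) * Real.sqrt (4 * Real.pi / V) := by
    have e1 : S * ‖J‖ = ‖(S : ℂ) * J‖ := by
      rw [norm_mul, Complex.norm_real, Real.norm_eq_abs, abs_of_nonneg (Real.sqrt_nonneg _)]
    rw [e1, hs]
    refine (norm_add_le _ _).trans ?_
    exact add_le_add hin hout
  have := final_num r η δ μ B D V S J κ rfl hr hr1 hδ0 hδ1 hη hη1 hB0 hD0 hμ hV hS hnorm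
  exact this

end

end Pool.Agent.H57R2.NicK
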