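import Pool.Agent.H295R2.Nic.Defs
import Pool.Agent.H57R2.NicK.Loc

set_option autoImplicit false

/-!
# Task N7 of helper295 (helper57): elementary estimates
-/

open MeasureTheory Filter Topology Set

namespace Pool.Agent.H57R2.NicK

open Pool.Agent.H295R2 Pool.Agent.H295R2.Nic

noncomputable section

/-- the kernel -/
def kk (w : ℝ) : ℝ := (1 + w) / w ^ 2 - Real.exp (-w) * (2 / w + 1 / w ^ 2)

theorem kk_eq (w : ℝ) (hw : 0 < w) : ∫ u in (0 : ℝ)..1, (1 + u) * Real.exp (-u * w) = kk w := by
  have hd : ∀ u ∈ uIcc (0 : ℝ) 1, HasDerivAt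
      (fun u : ℝ => -(Real.exp (-u * w) * ((1 + u) / w + 1 / w ^ 2)))
      ((1 + u) * Real.exp (-u * w)) u := by
    intro u _
    have h1 : HasDerivAt (fun u : ℝ => Real.exp (-u * w)) (Real.exp (-u * w) * (-1 * w)) u :=
      (((hasDerivAt_id u).neg).mul_const w).exp
    have h2 : HasDerivAt (fun u : ℝ => (1 + u) / w + 1 / w ^ 2) (1 / w) u :=
      (((hasDerivAt_id u).const_add 1).div_const w).add_const _
    refine (h1.mul h2).neg.congr_deriv ?_
    field_simp
    ring
  rw [intervalIntegral.integral_eq_sub_of_hasDerivAt hd]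
  · unfold kk
    simp only [neg_zero, zero_mul, Real.exp_zero, add_zero, neg_mul, one_mul]
    field_simp
    ring
  · apply Continuous.intervalIntegrable
    fun_prop

theorem kk_nonneg (w : ℝ) (hw : 0 < w) : 0 ≤ kk w := by
  rw [← kk_eq w hw]
  apply intervalIntegral.integral_nonneg zero_le_one
  intro u hu
  have := hu.1
  positivity

theorem kk_le (w : ℝ) (hw : 0 < w) : kk w ≤ 4 / (1 + w) := by
  rcases le_total w 1 with h | h
  · have h1 : kk w ≤ 2 := by
      rw [← kk_eq w hw]
      have : ∫ u in (0 : ℝ)..1, (1 + u) * Real.exp (-u * w) ≤ ∫ _u in (0 : ℝ)..1, (2 : ℝ) := by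
        apply intervalIntegral.integral_mono_on zero_le_one
        · apply Continuous.intervalIntegrable; fun_prop
        · apply Continuous.intervalIntegrable; fun_prop
        · intro u hu
          have h2 : Real.exp (-u * w) ≤ 1 := by
            rw [Real.exp_le_one_iff]; nlinarith [hu.1]
          have h3 := Real.exp_pos (-u * w)
          nlinarith [hu.1, hu.2]
      simpa using this
    refine h1.trans ?_
    rw [le_div_iff₀ (by linarith)]
    linarith
  · unfold kk
    have h1 : 0 ≤ Real.exp (-w) * (2 / w + 1 / w ^ 2) := by positivity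
    have h2 : (1 + w) / w ^ 2 ≤ 4 / (1 + w) := by
      rw [div_le_div_iff₀ (by positivity) (by positivity)]
      nlinarith
    linarith

theorem kk_meas : Measurable kk := by
  unfold kk
  fun_prop

theorem Sv_meas : Measurable Sv := by
  unfold Sv
  exact (Chebyshev.psi_mono.measurable.comp Real.measurable_exp).sub Real.measurable_exp

/-- `1 - Θ` -/
def aa : ℝ := 1 - zetaSup

theorem aa_nonneg : 0 ≤ aa := by
  unfold aa; linarith [zetaSup_le_one]

theorem aa_le : aa ≤ 1 / 2 := by
  unfold aa; linarith [half_le_zetaSup]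

/-- the basic bound -/
theorem S_bound (hB : PsiB) (hL : PsiLog) (ε : ℝ) (hε : 0 < ε) : ∃ C : ℝ, 0 < C ∧
    ∀ w : ℝ, 0 < w → |Sv w| * Real.exp (-w) ≤ C * (Real.exp (-(max (aa - ε) 0) * w) / (1 + w)) := by
  by_cases h : ε < aa
  · have hmax : max (aa - ε) 0 = aa - ε := max_eq_left (by linarith)
    rw [hmax]
    obtain ⟨C, hC⟩ := hB (zetaSup + ε / 2) (by linarith)
    refine ⟨(|C| + 1) * (1 + 2 / ε), by positivity, fun w hw => ?_⟩
    have h1 := hC (Real.exp w) (Real.one_le_exp hw.le)
    rw [← Real.exp_mul] at h1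
    have h2 : 1 + w ≤ (1 + 2 / ε) * Real.exp (ε / 2 * w) := by
      have h3 := Real.add_one_le_exp (ε / 2 * w)
      have h4 : w = 2 / ε * (ε / 2 * w) := by field_simp
      have h5 : 0 < 2 / ε := by positivity
      have h6 : 0 < ε / 2 * w := by positivity
      nlinarith
    have h7 : |Sv w| ≤ (|C| + 1) * Real.exp (w * (zetaSup + ε / 2)) := by
      refine h1.trans ?_
      apply mul_le_mul_of_nonneg_right _ (Real.exp_pos _).le
      linarith [le_abs_self C]
    rw [mul_div_assoc', le_div_iff₀ (by linarith)]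
    calc |Sv w| * Real.exp (-w) * (1 + w)
        ≤ ((|C| + 1) * Real.exp (w * (zetaSup + ε / 2))) * Real.exp (-w) *
          ((1 + 2 / ε) * Real.exp (ε / 2 * w)) := by
          apply mul_le_mul _ h2 (by linarith) (by positivity)
          exact mul_le_mul_of_nonneg_right h7 (Real.exp_pos _).le
      _ = (|C| + 1) * (1 + 2 / ε) * (Real.exp (w * (zetaSup + ε / 2)) * Real.exp (-w) *
          Real.exp (ε / 2 * w)) := by ring
      _ = _ := by
          rw [← Real.exp_add, ← Real.exp_add]
          congr 2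
          unfold aa
          ring
  · have hmax : max (aa - ε) 0 = 0 := max_eq_right (by linarith)
    rw [hmax]
    obtain ⟨C, hC⟩ := hL
    obtain ⟨C₂, hC₂⟩ := hB (zetaSup + 1) (by linarith)
    refine ⟨2 * |C| + 2 * (|C₂| * Real.exp 2) + 1, by positivity, fun w hw => ?_⟩
    rw [neg_zero, zero_mul, Real.exp_zero, mul_one_div, le_div_iff₀ (by linarith)]
    rcases le_total w 1 with h1 | h1
    · have h2 := hC₂ (Real.exp w) (Real.one_le_exp hw.le)
      rw [← Real.exp_mul] at h2
      have h3 : |Sv w| ≤ |C₂| * Real.exp 2 := by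
        refine h2.trans ?_
        apply mul_le_mul (le_abs_self _) _ (Real.exp_pos _).le (abs_nonneg _)
        rw [Real.exp_le_exp]
        have := zetaSup_le_one
        have := zetaSup_pos
        nlinarith
      have h4 : Real.exp (-w) ≤ 1 := by rw [Real.exp_le_one_iff]; linarith
      calc |Sv w| * Real.exp (-w) * (1 + w) ≤ (|C₂| * Real.exp 2) * 1 * 2 := by
            apply mul_le_mul _ (by linarith) (by linarith) (by positivity)
            exact mul_le_mul h3 h4 (Real.exp_pos _).le (by positivity)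
        _ ≤ _ := by
            have := abs_nonneg C
            linarith
    · have he : (2 : ℝ) ≤ Real.exp w := by
        have := Real.add_one_le_exp w; linarith
      have h2 := hC (Real.exp w) he
      rw [Real.log_exp] at h2
      have h3 : |Sv w| ≤ |C| * Real.exp w / w := by
        refine h2.trans ?_
        apply div_le_div_of_nonneg_right _ hw.le
        exact mul_le_mul_of_nonneg_right (le_abs_self _) (Real.exp_pos _).le
      have h5 : Real.exp w * Real.exp (-w) = 1 := by rw [← Real.exp_add]; simp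
      calc |Sv w| * Real.exp (-w) * (1 + w) ≤ (|C| * Real.exp w / w) * Real.exp (-w) * (2 * w) := by
            apply mul_le_mul _ (by linarith) (by linarith) (by positivity)
            exact mul_le_mul_of_nonneg_right h3 (Real.exp_pos _).le
        _ = 2 * |C| * (Real.exp w * Real.exp (-w)) := by field_simp
        _ ≤ _ := by
            rw [h5]
            have := abs_nonneg C₂
            have := Real.exp_pos 2
            nlinarith [mul_nonneg (abs_nonneg C₂) (Real.exp_pos 2).le]

/-- the function `S(w) e^{-w} k(w)` -/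
def gg (w : ℝ) : ℝ := Sv w * Real.exp (-w) * kk w

theorem gg_meas : Measurable gg := by
  unfold gg
  exact (Sv_meas.mul (by fun_prop)).mul kk_meas

theorem gg_bound (hB : PsiB) (hL : PsiLog) (ε : ℝ) (hε : 0 < ε) : ∃ C : ℝ, 0 < C ∧
    ∀ w : ℝ, 0 < w → |gg w| ≤ C * (Real.exp (-(max (aa - ε) 0) * w) * (1 + w) ^ (-2 : ℝ)) := by
  obtain ⟨C, hC, h⟩ := S_bound hB hL ε hε
  refine ⟨4 * C, by positivity, fun w hw => ?_⟩
  unfold gg
  rw [abs_mul, abs_mul, abs_of_pos (Real.exp_pos _), abs_of_nonneg (kk_nonneg w hw)]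
  have h1 := h w hw
  have h2 := kk_le w hw
  have h3 := kk_nonneg w hw
  calc |Sv w| * Real.exp (-w) * kk w
      ≤ (C * (Real.exp (-(max (aa - ε) 0) * w) / (1 + w))) * (4 / (1 + w)) := by
        apply mul_le_mul h1 h2 h3 (by positivity)
    _ = 4 * C * (Real.exp (-(max (aa - ε) 0) * w) * ((1 + w) ^ 2)⁻¹) := by
        field_simp
    _ = _ := by
        rw [Real.rpow_neg (by linarith)]
        norm_num

/-- integrability of `(1+w)^{-2}` on `(0, ∞)` -/
theorem int_sq : IntegrableOn (fun w : ℝ => (1 + w) ^ (-2 : ℝ)) (Ioi 0) := by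
  have h := integrableOn_add_rpow_Ioi_of_lt (a := -2) (c := 0) (m := 1) (by norm_num) (by norm_num)
  refine h.congr_fun (fun w _ => ?_) measurableSet_Ioi
  simp only [add_comm]

theorem sq_le_one (w : ℝ) (hw : 0 < w) : (1 + w) ^ (-2 : ℝ) ≤ 1 :=
  Real.rpow_le_one_of_one_le_of_nonpos (by linarith) (by norm_num)

theorem gg_int (hB : PsiB) (hL : PsiLog) : IntegrableOn gg (Ioi 0) := by
  obtain ⟨C, hC, h⟩ := gg_bound hB hL 1 one_pos
  refine (int_sq.const_mul C).mono' gg_meas.aestronglyMeasurable ?_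
  refine (ae_restrict_iff' measurableSet_Ioi).2 (Eventually.of_forall fun w hw => ?_)
  have hw' : 0 < w := hw
  rw [Real.norm_eq_abs]
  refine (h w hw').trans ?_
  have h1 : Real.exp (-(max (aa - 1) 0) * w) ≤ 1 := by
    rw [Real.exp_le_one_iff]
    have := le_max_right (aa - 1) 0
    nlinarith
  have h2 : 0 ≤ (1 + w) ^ (-2 : ℝ) := by positivity
  apply mul_le_mul_of_nonneg_left _ hC.le
  nlinarith

/-- `K₁` -/
def K1 (v : ℝ) : ℝ := ∫ w in Ioi v, gg w

/-- the remainder -/
def RR (v : ℝ) : ℝ := ∫ w in Ioi v, Sv w * Real.exp (-w) * (Real.exp (-w) * (2 / w + 1 / w ^ 2))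

theorem RR_int (hB : PsiB) (hL : PsiLog) (v : ℝ) (hv : 1 ≤ v) :
    IntegrableOn (fun w => Sv w * Real.exp (-w) * (Real.exp (-w) * (2 / w + 1 / w ^ 2))) (Ioi v) ∧
    ∀ C : ℝ, (∀ w : ℝ, 0 < w → |Sv w| * Real.exp (-w) ≤ C) → |RR v| ≤ 3 * C * Real.exp (-v) := by
  have key : ∀ C : ℝ, (∀ w : ℝ, 0 < w → |Sv w| * Real.exp (-w) ≤ C) → ∀ w ∈ Ioi v,
      ‖Sv w * Real.exp (-w) * (Real.exp (-w) * (2 / w + 1 / w ^ 2))‖ ≤ 3 * C * Real.exp (-w) := by
    intro C hC w hw
    have hw1 : 1 < w := lt_of_le_of_lt hv hw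
    have hw0 : 0 < w := by linarith
    have h1 : 2 / w + 1 / w ^ 2 ≤ 3 := by
      have h2 : 2 / w ≤ 2 := by rw [div_le_iff₀ hw0]; linarith
      have h3 : 1 / w ^ 2 ≤ 1 := by rw [div_le_iff₀ (by positivity)]; nlinarith
      linarith
    have h0 : 0 ≤ 2 / w + 1 / w ^ 2 := by positivity
    rw [norm_mul, norm_mul, norm_mul, Real.norm_eq_abs, Real.norm_eq_abs, Real.norm_eq_abs,
      abs_of_pos (Real.exp_pos _), abs_of_nonneg h0]
    calc |Sv w| * Real.exp (-w) * (Real.exp (-w) * (2 / w + 1 / w ^ 2))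
        ≤ C * (Real.exp (-w) * 3) := by
          have hC0 : 0 ≤ C := le_trans (by positivity) (hC w hw0)
          apply mul_le_mul (hC w hw0) _ (by positivity) hC0
          exact mul_le_mul_of_nonneg_left h1 (Real.exp_pos _).le
      _ = _ := by ring
  have hexp : IntegrableOn (fun w : ℝ => Real.exp (-w)) (Ioi v) := integrableOn_exp_neg_Ioi v
  constructor
  · obtain ⟨C, hC, h⟩ := S_bound hB hL 1 one_pos
    have hC' : ∀ w : ℝ, 0 < w → |Sv w| * Real.exp (-w) ≤ C := by
      intro w hw
      refine (h w hw).trans ?_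
      have h1 : Real.exp (-(max (aa - 1) 0) * w) ≤ 1 := by
        rw [Real.exp_le_one_iff]
        have := le_max_right (aa - 1) 0
        nlinarith
      have h2 : Real.exp (-(max (aa - 1) 0) * w) / (1 + w) ≤ 1 := by
        rw [div_le_one (by linarith)]; linarith
      nlinarith
    refine (hexp.const_mul (3 * C)).mono' ?_ ?_
    · apply Measurable.aestronglyMeasurable
      exact (Sv_meas.mul (by fun_prop)).mul (by fun_prop)
    · exact (ae_restrict_iff' measurableSet_Ioi).2 (Eventually.of_forall (key C hC'))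
  · intro C hC
    unfold RR
    rw [← Real.norm_eq_abs]
    refine (norm_integral_le_of_norm_le (hexp.const_mul (3 * C))
      ((ae_restrict_iff' measurableSet_Ioi).2 (Eventually.of_forall (key C hC)))).trans ?_
    rw [integral_const_mul, integral_exp_neg_Ioi]

/-- `K` in logarithmic coordinates -/
theorem KK_eq (hB : PsiB) (hL : PsiLog) (v : ℝ) (hv : 1 ≤ v) : KK (Real.exp v) = K1 v + RR v := by
  have h1 : KK (Real.exp v) = ∫ w in Ioi v, Sv w * Real.exp (-w) * ((1 + w) / w ^ 2) := by
    unfold KK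
    have himg : Ioi (Real.exp v) = Real.exp '' (Ioi v) := by
      ext t
      simp only [mem_Ioi, mem_image]
      constructor
      · intro ht
        have ht0 : 0 < t := lt_trans (Real.exp_pos v) ht
        exact ⟨Real.log t, (Real.lt_log_iff_exp_lt ht0).2 ht, Real.exp_log ht0⟩
      · rintro ⟨w, hw, rfl⟩
        exact Real.exp_lt_exp.2 hw
    rw [himg, integral_image_eq_integral_abs_deriv_smul measurableSet_Ioi
      (fun w _ => (Real.hasDerivAt_exp w).hasDerivWithinAt) (Real.exp_injective.injOn)]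
    refine setIntegral_congr_fun measurableSet_Ioi fun w hw => ?_
    have hw0 : 0 < w := lt_of_lt_of_le (by linarith) (le_of_lt hw)
    simp only [smul_eq_mul]
    unfold ell Sv
    rw [Real.log_exp, abs_of_pos (Real.exp_pos _)]
    have he : Real.exp (-w) = (Real.exp w)⁻¹ := Real.exp_neg w
    rw [he]
    have := (Real.exp_pos w).ne'
    field_simp
  rw [h1]
  unfold K1 RR
  rw [← integral_add ((gg_int hB hL).mono_set (Ioi_subset_Ioi (by linarith)))
    (RR_int hB hL v hv).1]
  refine setIntegral_congr_fun measurableSet_Ioi fun w hw => ?_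
  unfold gg kk
  ring

end

end Pool.Agent.H57R2.NicK
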