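import Pool.Agent.H57R2.NicK.Bas

set_option autoImplicit false

/-!
# Task N7 of helper295 (helper57): the Laplace transform of `K₁`
-/

open MeasureTheory Filter Topology Set

namespace Pool.Agent.H57R2.NicK

open Pool.Agent.H295R2 Pool.Agent.H295R2.Nic

noncomputable section

/-! ### the zero-free region -/

theorem zerofree (hR : RealNZ) : ∃ ρ : ℝ, 0 < ρ ∧
    ∀ s : ℂ, 1 / 4 ≤ s.re → s.re ≤ 4 → |s.im| < ρ → Zs s ≠ 0 := by
  set K : Set ℂ := (fun x : ℝ => (x : ℂ)) '' Icc (1 / 4 : ℝ) 4 with hK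
  have hKc : IsCompact K := isCompact_Icc.image Complex.continuous_ofReal
  have hUo : IsOpen {s : ℂ | Zs s ≠ 0} :=
    isOpen_ne_fun Zs_differentiable.continuous continuous_const
  have hKU : K ⊆ {s : ℂ | Zs s ≠ 0} := by
    rintro _ ⟨x, hx, rfl⟩
    exact hR x (by have := hx.1; linarith)
  obtain ⟨ρ, hρ, hsub⟩ := hKc.exists_thickening_subset_open hUo hKU
  refine ⟨ρ, hρ, fun s h1 h2 h3 => ?_⟩
  apply hsub
  rw [Metric.mem_thickening_iff]
  refine ⟨(s.re : ℂ), ⟨s.re, ⟨h1, h2⟩, rfl⟩, ?_⟩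
  rw [Complex.dist_eq]
  have : s - (s.re : ℂ) = (s.im : ℂ) * Complex.I := by
    apply Complex.ext <;> simp
  rw [this, norm_mul, Complex.norm_I, mul_one, Complex.norm_real]
  exact h3

theorem HA_diff (s : ℂ) (h0 : s ≠ 0) (h1 : Zs s ≠ 0) : DifferentiableAt ℂ HA s := by
  have hd : Differentiable ℂ (deriv Zs) := by
    have := (Zs_differentiable.differentiableOn (s := univ)).deriv isOpen_univ
    exact differentiableOn_univ.1 this
  unfold HA
  refine DifferentiableAt.sub ?_ ?_
  · refine DifferentiableAt.div (hd s).neg (differentiableAt_id.mul (Zs_differentiable s)) ?_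
    exact mul_ne_zero h0 h1
  · exact (differentiableAt_const _).div differentiableAt_id h0

/-- the function `N` -/
def NN (z : ℂ) : ℂ := ∫ u in (0 : ℝ)..1, (1 + (u : ℂ)) * HA ((zetaSup : ℂ) + u + z)

theorem NN_diff (R U : Set ℂ) (hRo : IsOpen R) (hUo : IsOpen U) (hA : DifferentiableOn ℂ HA R)
    (h : ∀ z ∈ U, ∀ u ∈ Icc (0 : ℝ) 1, (zetaSup : ℂ) + u + z ∈ R) : DifferentiableOn ℂ NN U := by
  intro z₀ hz₀
  obtain ⟨ρ, hρ, hball⟩ := Metric.isOpen_iff.1 hUo z₀ hz₀
  have hcb : Metric.closedBall z₀ (ρ / 2) ⊆ U :=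
    (Metric.closedBall_subset_ball (by linarith)).trans hball
  set K : Set ℂ := (fun p : ℝ × ℂ => (zetaSup : ℂ) + p.1 + p.2) ''
    (Icc (0 : ℝ) 1 ×ˢ Metric.closedBall z₀ (ρ / 2)) with hK
  have hKc : IsCompact K := by
    apply (isCompact_Icc.prod (isCompact_closedBall _ _)).image
    fun_prop
  have hKR : K ⊆ R := by
    rintro _ ⟨⟨u, z⟩, ⟨hu, hz⟩, rfl⟩
    exact h z (hcb hz) u hu
  have hdA : DifferentiableOn ℂ (deriv HA) R := hA.deriv hRo
  obtain ⟨B, hB⟩ := hKc.exists_bound_of_continuousOn (hdA.continuousOn.mono hKR)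
  have hcont : ∀ z ∈ U, ∀ G : ℂ → ℂ, ContinuousOn G R →
      ContinuousOn (fun u : ℝ => (1 + (u : ℂ)) * G ((zetaSup : ℂ) + u + z)) (uIcc (0 : ℝ) 1) := by
    intro z hz G hG
    apply ContinuousOn.mul (by fun_prop)
    refine hG.comp (by fun_prop) ?_
    intro u hu
    rw [uIcc_of_le zero_le_one] at hu
    exact h z hz u hu
  have key := intervalIntegral.hasDerivAt_integral_of_dominated_loc_of_deriv_le
    (μ := volume) (a := (0 : ℝ)) (b := 1)
    (F := fun (z : ℂ) (u : ℝ) => (1 + (u : ℂ)) * HA ((zetaSup : ℂ) + u + z))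
    (F' := fun (z : ℂ) (u : ℝ) => (1 + (u : ℂ)) * deriv HA ((zetaSup : ℂ) + u + z))
    (x₀ := z₀) (s := Metric.closedBall z₀ (ρ / 2)) (bound := fun _ => 2 * B)
    (Metric.closedBall_mem_nhds _ (by linarith)) ?_ ?_ ?_ ?_ ?_ ?_
  · exact key.2.differentiableAt.differentiableWithinAt
  · filter_upwards [hUo.mem_nhds hz₀] with z hz
    have := (hcont z hz HA hA.continuousOn).intervalIntegrable (μ := volume)
    exact this.def'.aestronglyMeasurable
  · exact (hcont z₀ hz₀ HA hA.continuousOn).intervalIntegrable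
  · have := (hcont z₀ hz₀ _ hdA.continuousOn).intervalIntegrable (μ := volume)
    exact this.def'.aestronglyMeasurable
  · refine Eventually.of_forall fun u hu z hz => ?_
    rw [uIoc_of_le zero_le_one] at hu
    have h1 : ‖deriv HA ((zetaSup : ℂ) + u + z)‖ ≤ B :=
      hB _ ⟨(u, z), ⟨⟨hu.1.le, hu.2⟩, hz⟩, rfl⟩
    rw [norm_mul]
    have h2 : ‖(1 : ℂ) + (u : ℂ)‖ ≤ 2 := by
      have : (1 : ℂ) + (u : ℂ) = ((1 + u : ℝ) : ℂ) := by push_cast; rfl
      rw [this, Complex.norm_real, Real.norm_eq_abs, abs_of_nonneg (by linarith [hu.1])]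
      linarith [hu.2]
    exact mul_le_mul h2 h1 (norm_nonneg _) (by norm_num)
  · exact intervalIntegrable_const
  · refine Eventually.of_forall fun u hu z hz => ?_
    rw [uIoc_of_le zero_le_one] at hu
    have hmem : (zetaSup : ℂ) + u + z ∈ R := h z (hcb hz) u ⟨hu.1.le, hu.2⟩
    have hd := (hA.differentiableAt (hRo.mem_nhds hmem)).hasDerivAt
    have h3 : HasDerivAt (fun z : ℂ => (zetaSup : ℂ) + u + z) 1 z :=
      (hasDerivAt_id z).const_add _
    have := (hd.comp z h3).const_mul (1 + (u : ℂ))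
    simpa using this

/-! ### the first Fubini -/

theorem conv1 (hE : HEq) (z : ℂ) (hz : 0 ≤ z.re)
    (hint : IntegrableOn (fun w : ℝ => (gg w : ℂ) * Complex.exp (((aa : ℂ) - z) * w)) (Ioi 0)) :
    ∫ w in Ioi (0 : ℝ), (gg w : ℂ) * Complex.exp (((aa : ℂ) - z) * w) = NN z := by
  set Φ : ℝ → ℝ → ℂ := fun w u =>
    (1 + (u : ℂ)) * ((Sv w : ℂ) * Complex.exp (-((zetaSup : ℂ) + u + z) * w)) with hΦ
  have hfact : ∀ w u : ℝ, Φ w u = ((Sv w : ℂ) * Complex.exp (-((zetaSup : ℂ) + z) * w)) *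
      (((1 + u) * Real.exp (-u * w) : ℝ) : ℂ) := by
    intro w u
    rw [hΦ]
    simp only
    have : Complex.exp (-((zetaSup : ℂ) + u + z) * w) =
        Complex.exp (-((zetaSup : ℂ) + z) * w) * Complex.exp (-(u : ℂ) * w) := by
      rw [← Complex.exp_add]; congr 1; ring
    rw [this]
    push_cast
    ring
  have hw1 : ∀ w : ℝ, 0 < w → (gg w : ℂ) * Complex.exp (((aa : ℂ) - z) * w) =
      ((Sv w : ℂ) * Complex.exp (-((zetaSup : ℂ) + z) * w)) * (kk w : ℂ) := by
    intro w _
    unfold gg aa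
    push_cast
    have : Complex.exp (-(w : ℂ)) * Complex.exp (((1 : ℂ) - (zetaSup : ℂ) - z) * w) =
        Complex.exp (-((zetaSup : ℂ) + z) * w) := by
      rw [← Complex.exp_add]; congr 1; ring
    rw [← this]; ring
  have hmeas : Measurable (Function.uncurry Φ) := by
    rw [hΦ]
    have h1 : Measurable fun p : ℝ × ℝ => ((Sv p.1 : ℝ) : ℂ) :=
      Complex.measurable_ofReal.comp (Sv_meas.comp measurable_fst)
    have h2 : Measurable fun p : ℝ × ℝ => Complex.exp (-((zetaSup : ℂ) + (p.2 : ℂ) + z) * p.1) := by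
      apply Continuous.measurable; fun_prop
    have h3 : Measurable fun p : ℝ × ℝ => (1 : ℂ) + (p.2 : ℂ) := by
      apply Continuous.measurable; fun_prop
    exact h3.mul (h1.mul h2)
  have hnorm : ∀ w : ℝ, 0 < w → ∫ u in Ioc (0 : ℝ) 1, ‖Φ w u‖ =
      ‖(gg w : ℂ) * Complex.exp (((aa : ℂ) - z) * w)‖ := by
    intro w hw
    rw [hw1 w hw, norm_mul, Complex.norm_real, Real.norm_eq_abs, abs_of_nonneg (kk_nonneg w hw),
      ← kk_eq w hw, intervalIntegral.integral_of_le zero_le_one, ← integral_const_mul]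
    refine setIntegral_congr_fun measurableSet_Ioc fun u hu => ?_
    rw [hfact, norm_mul, Complex.norm_real, Real.norm_eq_abs,
      abs_of_nonneg (by have := hu.1; positivity)]
  have hprod : Integrable (Function.uncurry Φ)
      ((volume.restrict (Ioi 0)).prod (volume.restrict (Ioc 0 1))) := by
    rw [integrable_prod_iff hmeas.aestronglyMeasurable]
    constructor
    · refine Eventually.of_forall fun w => ?_
      have : Continuous fun u : ℝ => Φ w u := by
        rw [hΦ]; fun_prop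
      exact (this.integrableOn_Icc (a := 0) (b := 1)).mono_set Ioc_subset_Icc_self
    · refine (hint.norm).congr ?_
      refine (ae_restrict_iff' measurableSet_Ioi).2 (Eventually.of_forall fun w hw => ?_)
      exact (hnorm w hw).symm
  have e1 : ∫ w in Ioi (0 : ℝ), (gg w : ℂ) * Complex.exp (((aa : ℂ) - z) * w) =
      ∫ w in Ioi (0 : ℝ), ∫ u in Ioc (0 : ℝ) 1, Φ w u := by
    refine setIntegral_congr_fun measurableSet_Ioi fun w hw => ?_
    rw [hw1 w hw, ← kk_eq w hw, ← intervalIntegral.integral_ofReal,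
      intervalIntegral.integral_of_le zero_le_one, ← integral_const_mul]
    refine setIntegral_congr_fun measurableSet_Ioc fun u _ => ?_
    rw [hfact]
  rw [e1, integral_integral_swap hprod]
  unfold NN
  rw [intervalIntegral.integral_of_le zero_le_one]
  refine setIntegral_congr_fun measurableSet_Ioc fun u hu => ?_
  rw [hΦ]
  simp only
  rw [integral_const_mul]
  congr 1
  have hs : zetaSup < ((zetaSup : ℂ) + u + z).re := by
    simp only [Complex.add_re, Complex.ofReal_re]
    have := hu.1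
    linarith
  rw [← (hE _ hs).2]
  rfl

/-! ### the second Fubini -/

theorem exp_int (c : ℂ) (β : ℂ) (hβ : β ≠ 0) (w : ℝ) (hw : 0 < w) :
    ∫ v in Ioi (0 : ℝ), (if v < w then c else 0) * Complex.exp (β * v) =
      c * ((Complex.exp (β * w) - 1) / β) := by
  have h1 : (fun v : ℝ => (if v < w then c else 0) * Complex.exp (β * v)) =
      (Iio w).indicator (fun v : ℝ => c * Complex.exp (β * v)) := by
    funext v
    rw [indicator_apply]
    simp only [mem_Iio]
    split_ifs <;> simp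
  rw [h1, integral_indicator measurableSet_Iio, Measure.restrict_restrict measurableSet_Iio,
    Iio_inter_Ioi, ← integral_Ioc_eq_integral_Ioo, ← intervalIntegral.integral_of_le hw.le,
    intervalIntegral.integral_const_mul, integral_exp_mul_complex hβ]
  simp

theorem laplace (hB : PsiB) (hL : PsiLog) (hE : HEq) (ε : ℝ) (hε : 0 < ε) (z : ℂ)
    (hz : z.re = 2 * ε) (hza : (aa : ℂ) - z ≠ 0) :
    IntegrableOn (fun v : ℝ => ((K1 v * Real.exp (aa * v) : ℝ) : ℂ) * Complex.exp (-z * v)) (Ioi 0) ∧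
    ∫ v in Ioi (0 : ℝ), ((K1 v * Real.exp (aa * v) : ℝ) : ℂ) * Complex.exp (-z * v) =
      (NN z - NN (aa : ℂ)) / ((aa : ℂ) - z) := by
  obtain ⟨C, hC, hb⟩ := gg_bound hB hL ε hε
  set b := max (aa - ε) 0 with hbdef
  have hb0 : 0 ≤ b := le_max_right _ _
  have hb1 : aa - ε ≤ b := le_max_left _ _
  set Ψ : ℝ → ℝ → ℂ := fun v w =>
    (if v < w then (gg w : ℂ) else 0) * Complex.exp (((aa : ℂ) - z) * v) with hΨ
  have hmeas : Measurable (Function.uncurry Ψ) := by
    rw [hΨ]
    have h1 : Measurable fun p : ℝ × ℝ => (if p.1 < p.2 then (gg p.2 : ℂ) else 0) := by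
      apply Measurable.ite (measurableSet_lt measurable_fst measurable_snd)
      · exact Complex.measurable_ofReal.comp (gg_meas.comp measurable_snd)
      · exact measurable_const
    have h2 : Measurable fun p : ℝ × ℝ => Complex.exp (((aa : ℂ) - z) * p.1) := by
      apply Continuous.measurable; fun_prop
    exact h1.mul h2
  have hexpn : ∀ v : ℝ, ‖Complex.exp (((aa : ℂ) - z) * v)‖ = Real.exp ((aa - 2 * ε) * v) := by
    intro v
    rw [Complex.norm_exp]
    congr 1
    rw [Complex.re_mul_ofReal, Complex.sub_re, Complex.ofReal_re, hz]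
  have hdom : Integrable (fun p : ℝ × ℝ => Real.exp (-ε * p.1) * (C * (1 + p.2) ^ (-2 : ℝ)))
      ((volume.restrict (Ioi 0)).prod (volume.restrict (Ioi 0))) := by
    have h1 : Integrable (fun v : ℝ => Real.exp (-ε * v)) (volume.restrict (Ioi 0)) :=
      integrableOn_exp_mul_Ioi (by linarith) 0
    exact h1.mul_prod (int_sq.const_mul C)
  have hprod : Integrable (Function.uncurry Ψ)
      ((volume.restrict (Ioi 0)).prod (volume.restrict (Ioi 0))) := by
    refine hdom.mono' hmeas.aestronglyMeasurable ?_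
    rw [Measure.prod_restrict]
    refine (ae_restrict_iff' (measurableSet_Ioi.prod measurableSet_Ioi)).2
      (Eventually.of_forall fun p hp => ?_)
    obtain ⟨hv, hw⟩ := hp
    have hv0 : 0 < p.1 := hv
    have hw0 : 0 < p.2 := hw
    show ‖(if p.1 < p.2 then (gg p.2 : ℂ) else 0) * Complex.exp (((aa : ℂ) - z) * p.1)‖ ≤ _
    rw [norm_mul, hexpn]
    have h0 : 0 ≤ (1 + p.2) ^ (-2 : ℝ) := by positivity
    split_ifs with hlt
    · rw [Complex.norm_real, Real.norm_eq_abs]
      have h1 := hb p.2 hw0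
      have h2 : Real.exp (-b * p.2) * Real.exp ((aa - 2 * ε) * p.1) ≤ Real.exp (-ε * p.1) := by
        rw [← Real.exp_add, Real.exp_le_exp]
        nlinarith
      calc |gg p.2| * Real.exp ((aa - 2 * ε) * p.1)
          ≤ (C * (Real.exp (-b * p.2) * (1 + p.2) ^ (-2 : ℝ))) * Real.exp ((aa - 2 * ε) * p.1) :=
            mul_le_mul_of_nonneg_right h1 (Real.exp_pos _).le
        _ = (Real.exp (-b * p.2) * Real.exp ((aa - 2 * ε) * p.1)) * (C * (1 + p.2) ^ (-2 : ℝ)) := by
            ring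
        _ ≤ _ := mul_le_mul_of_nonneg_right h2 (by positivity)
    · rw [norm_zero, zero_mul]
      positivity
  have hinner : ∀ v ∈ Ioi (0 : ℝ), ∫ w in Ioi (0 : ℝ), Ψ v w =
      ((K1 v * Real.exp (aa * v) : ℝ) : ℂ) * Complex.exp (-z * v) := by
    intro v hv
    have hv0 : 0 < v := hv
    rw [hΨ]
    simp only
    rw [integral_mul_const]
    have h1 : (fun w : ℝ => (if v < w then (gg w : ℂ) else 0)) =
        (Ioi v).indicator (fun w : ℝ => ((gg w : ℝ) : ℂ)) := by
      funext w
      rw [indicator_apply]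
      simp only [mem_Ioi]
    rw [h1, integral_indicator measurableSet_Ioi, Measure.restrict_restrict measurableSet_Ioi,
      Ioi_inter_Ioi, max_eq_left hv0.le, integral_complex_ofReal]
    unfold K1
    push_cast
    rw [mul_assoc, ← Complex.exp_add]
    congr 2
    ring
  have hgint1 : IntegrableOn (fun w : ℝ => (gg w : ℂ) * Complex.exp (((aa : ℂ) - z) * w)) (Ioi 0) := by
    refine (int_sq.const_mul C).mono' ?_ ?_
    · apply Measurable.aestronglyMeasurable
      exact (Complex.measurable_ofReal.comp gg_meas).mul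
        (Continuous.measurable (by fun_prop))
    · refine (ae_restrict_iff' measurableSet_Ioi).2 (Eventually.of_forall fun w hw => ?_)
      have hw0 : 0 < w := hw
      rw [norm_mul, hexpn, Complex.norm_real, Real.norm_eq_abs]
      have h2 : Real.exp (-b * w) * Real.exp ((aa - 2 * ε) * w) ≤ 1 := by
        rw [← Real.exp_add, Real.exp_le_one_iff]
        nlinarith
      have h0 : 0 ≤ (1 + w) ^ (-2 : ℝ) := by positivity
      calc |gg w| * Real.exp ((aa - 2 * ε) * w)
          ≤ (C * (Real.exp (-b * w) * (1 + w) ^ (-2 : ℝ))) * Real.exp ((aa - 2 * ε) * w) :=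
            mul_le_mul_of_nonneg_right (hb w hw0) (Real.exp_pos _).le
        _ = (Real.exp (-b * w) * Real.exp ((aa - 2 * ε) * w)) * (C * (1 + w) ^ (-2 : ℝ)) := by
            ring
        _ ≤ 1 * (C * (1 + w) ^ (-2 : ℝ)) := mul_le_mul_of_nonneg_right h2 (by positivity)
        _ = _ := one_mul _
  have hgint2 : IntegrableOn (fun w : ℝ => (gg w : ℂ)) (Ioi 0) := (gg_int hB hL).ofReal
  constructor
  · refine (hprod.integral_prod_left).congr ?_
    exact (ae_restrict_iff' measurableSet_Ioi).2 (Eventually.of_forall hinner)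
  · have e1 : ∫ v in Ioi (0 : ℝ), ((K1 v * Real.exp (aa * v) : ℝ) : ℂ) * Complex.exp (-z * v) =
        ∫ v in Ioi (0 : ℝ), ∫ w in Ioi (0 : ℝ), Ψ v w :=
      setIntegral_congr_fun measurableSet_Ioi fun v hv => (hinner v hv).symm
    rw [e1, integral_integral_swap hprod]
    have e2 : ∫ w in Ioi (0 : ℝ), ∫ v in Ioi (0 : ℝ), Ψ v w =
        ∫ w in Ioi (0 : ℝ), ((gg w : ℂ) * Complex.exp (((aa : ℂ) - z) * w) - (gg w : ℂ)) *
          ((aa : ℂ) - z)⁻¹ := by
      refine setIntegral_congr_fun measurableSet_Ioi fun w hw => ?_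
      rw [hΨ]
      simp only
      rw [exp_int _ _ hza w hw]
      field_simp
    rw [e2, integral_mul_const, integral_sub hgint1 hgint2, conv1 hE z (by rw [hz]; linarith) hgint1]
    have e3 : ∫ w in Ioi (0 : ℝ), (gg w : ℂ) = NN (aa : ℂ) := by
      rw [← conv1 hE (aa : ℂ) (by simpa using aa_nonneg)]
      · refine setIntegral_congr_fun measurableSet_Ioi fun w _ => ?_
        simp
      · simpa using hgint2
    rw [e3, div_eq_mul_inv]

end

end Pool.Agent.H57R2.NicK
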