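import Pool.Agent.H57R2.NicK.Lap

set_option autoImplicit false

/-!
# Task N7 of helper295 (helper57): Gaussian averages of `K` are exponentially small
-/

open MeasureTheory Filter Topology Set

namespace Pool.Agent.H57R2.NicK

open Pool.Agent.H295R2 Pool.Agent.H295R2.Nic

noncomputable section

/-- pointwise bound -/
theorem gauss_pt (δ μ v : ℝ) (hδ0 : 0 < δ) (hδ1 : δ ≤ 1) (hμ : 1 ≤ μ) (hv : 0 ≤ v) :
    Real.exp (-v / 2) * Gs (δ * μ) μ v ≤ Real.exp (-(μ / 8)) * Real.exp (-(1 / 4) * v) := by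
  unfold Gs
  rw [← Real.exp_add, ← Real.exp_add, Real.exp_le_exp]
  have hμ0 : 0 < μ := by linarith
  have hV : 0 < 2 * (δ * μ) := by positivity
  have h0 : 0 ≤ (v - μ) ^ 2 / (2 * (δ * μ)) := by positivity
  have e1 : -(v - μ) ^ 2 / (2 * (δ * μ)) = -((v - μ) ^ 2 / (2 * (δ * μ))) := by ring
  rw [e1]
  rcases le_total (μ / 2) v with h | h
  · linarith
  · have h1 : μ / 8 ≤ (v - μ) ^ 2 / (2 * (δ * μ)) := by
      rw [le_div_iff₀ hV]
      have h2 : (μ / 2) ^ 2 ≤ (v - μ) ^ 2 := by nlinarith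
      have h3 : μ / 8 * (2 * (δ * μ)) ≤ (μ / 2) ^ 2 := by nlinarith [mul_pos hμ0 hμ0]
      linarith
    linarith

/-- pointwise bound on `(0,1]` -/
theorem gauss_pt1 (δ μ v : ℝ) (hδ0 : 0 < δ) (hδ1 : δ ≤ 1) (hμ : 1 ≤ μ) (hv1 : v ≤ 1) :
    Gs (δ * μ) μ v ≤ Real.exp 1 * Real.exp (-(μ / 2)) := by
  unfold Gs
  rw [← Real.exp_add, Real.exp_le_exp]
  have hμ0 : 0 < μ := by linarith
  have hV : 0 < 2 * (δ * μ) := by positivity
  have e1 : -(v - μ) ^ 2 / (2 * (δ * μ)) = -((v - μ) ^ 2 / (2 * (δ * μ))) := by ring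
  rw [e1]
  have h1 : (μ - 2) / 2 ≤ (v - μ) ^ 2 / (2 * (δ * μ)) := by
    rcases le_total μ 2 with h | h
    · have : 0 ≤ (v - μ) ^ 2 / (2 * (δ * μ)) := by positivity
      linarith
    · rw [le_div_iff₀ hV]
      have h2 : (μ - 1) ^ 2 ≤ (v - μ) ^ 2 := by nlinarith
      have h3 : (μ - 2) / 2 * (2 * (δ * μ)) ≤ (μ - 2) * μ := by
        have : 0 ≤ (μ - 2) * μ := by nlinarith
        nlinarith
      nlinarith
  linarith

theorem gauss_mul_exp_le (V μ η v : ℝ) (hV : 0 < V) :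
    Gs V μ v * Real.exp (η * v) ≤ Real.exp (μ * η + V * η ^ 2 / 2) := by
  unfold Gs
  rw [← Real.exp_add, Real.exp_le_exp]
  have : μ * η + V * η ^ 2 / 2 - (-(v - μ) ^ 2 / (2 * V) + η * v) =
      (v - μ - V * η) ^ 2 / (2 * V) := by
    field_simp; ring
  have h0 : 0 ≤ (v - μ - V * η) ^ 2 / (2 * V) := by positivity
  linarith

theorem RR_meas : StronglyMeasurable RR := by
  have h1 : RR = fun v => ∫ w, (if v < w then
      Sv w * Real.exp (-w) * (Real.exp (-w) * (2 / w + 1 / w ^ 2)) else 0) := by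
    funext v
    unfold RR
    rw [← integral_indicator measurableSet_Ioi]
    rfl
  rw [h1]
  apply StronglyMeasurable.integral_prod_right'
    (f := fun p : ℝ × ℝ => (if p.1 < p.2 then
      Sv p.2 * Real.exp (-p.2) * (Real.exp (-p.2) * (2 / p.2 + 1 / p.2 ^ 2)) else 0))
  apply Measurable.stronglyMeasurable
  apply Measurable.ite (measurableSet_lt measurable_fst measurable_snd)
  · exact ((Sv_meas.comp measurable_snd).mul (by fun_prop)).mul (by fun_prop)
  · exact measurable_const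

theorem Gs_cont (V μ : ℝ) : Continuous (Gs V μ) := by
  unfold Gs; fun_prop

theorem Gs_nonneg (V μ v : ℝ) : 0 ≤ Gs V μ v := (Real.exp_pos _).le

theorem Gs_le_one (V μ v : ℝ) (hV : 0 < V) : Gs V μ v ≤ 1 := by
  unfold Gs
  rw [Real.exp_le_one_iff]
  have : 0 ≤ (v - μ) ^ 2 / (2 * V) := by positivity
  have e1 : -(v - μ) ^ 2 / (2 * V) = -((v - μ) ^ 2 / (2 * V)) := by ring
  linarith

theorem K1_bound (hB : PsiB) (hL : PsiLog) (v : ℝ) (hv : 0 ≤ v) :
    |K1 v| ≤ ∫ w in Ioi (0 : ℝ), |gg w| := by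
  unfold K1
  have hg := gg_int hB hL
  calc |∫ w in Ioi v, gg w| ≤ ∫ w in Ioi v, |gg w| := by
        have := norm_integral_le_integral_norm (μ := volume.restrict (Ioi v)) gg
        simpa [Real.norm_eq_abs] using this
    _ ≤ ∫ w in Ioi (0 : ℝ), |gg w| := by
        apply setIntegral_mono_set hg.abs (Eventually.of_forall fun w => abs_nonneg _)
        exact (Ioi_subset_Ioi hv).eventuallyLE

/-- the analytic part -/
theorem main_part (hB : PsiB) (hL : PsiLog) (hE : HEq) (hR : RealNZ) (δ : ℝ) (hδ0 : 0 < δ)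
    (hδ1 : δ ≤ 1) : ∃ c C : ℝ, 0 < c ∧ c ≤ 1 / 8 ∧ ∀ μ : ℝ, 1 ≤ μ →
      IntegrableOn (fun v : ℝ => K1 v * Real.exp (aa * v) * Gs (δ * μ) μ v) (Ioi 0) ∧
      |∫ v in Ioi (0 : ℝ), K1 v * Real.exp (aa * v) * Gs (δ * μ) μ v| ≤ C * Real.exp (-c * μ) := by
  obtain ⟨ρ, hρ, hzf⟩ := zerofree hR
  set r := min (ρ / 2) (1 / 8) with hr
  have hr0 : 0 < r := by rw [hr]; positivity
  have hr1 : r ≤ 1 / 8 := min_le_right _ _
  have hrρ : r < ρ := lt_of_le_of_lt (min_le_left _ _) (by linarith)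
  obtain ⟨η, hη0, hη1, hη2⟩ : ∃ η : ℝ, 0 < η ∧ η ≤ δ * r ^ 2 / 16 ∧ η ≠ aa := by
    by_cases h : δ * r ^ 2 / 16 = aa
    · refine ⟨δ * r ^ 2 / 32, by positivity, by
        have : 0 < δ * r ^ 2 := by positivity
        linarith, ?_⟩
      have : 0 < δ * r ^ 2 := by positivity
      intro h'
      linarith
    · exact ⟨δ * r ^ 2 / 16, by positivity, le_rfl, h⟩
  have hκ1 : δ * r ^ 2 / 16 ≤ 1 / 8 := by
    have : δ * r ^ 2 ≤ 1 := by nlinarith
    linarith
  -- the regions
  set R : Set ℂ := {s : ℂ | 1 / 4 < s.re ∧ s.re < 4 ∧ |s.im| < ρ} with hRdef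
  set U : Set ℂ := {z : ℂ | -(1 / 4) < z.re ∧ z.re < 2 ∧ |z.im| < ρ} with hUdef
  have hRo : IsOpen R := by
    have h1 : IsOpen {s : ℂ | 1 / 4 < s.re} := isOpen_lt continuous_const Complex.continuous_re
    have h2 : IsOpen {s : ℂ | s.re < 4} := isOpen_lt Complex.continuous_re continuous_const
    have h3 : IsOpen {s : ℂ | |s.im| < ρ} :=
      isOpen_lt (Complex.continuous_im.abs) continuous_const
    exact h1.inter (h2.inter h3)
  have hUo : IsOpen U := by
    have h1 : IsOpen {s : ℂ | -(1 / 4) < s.re} := isOpen_lt continuous_const Complex.continuous_re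
    have h2 : IsOpen {s : ℂ | s.re < 2} := isOpen_lt Complex.continuous_re continuous_const
    have h3 : IsOpen {s : ℂ | |s.im| < ρ} :=
      isOpen_lt (Complex.continuous_im.abs) continuous_const
    exact h1.inter (h2.inter h3)
  have hA : DifferentiableOn ℂ HA R := by
    intro s hs
    apply (HA_diff s _ (hzf s hs.1.le hs.2.1.le hs.2.2)).differentiableWithinAt
    intro h0
    have := hs.1
    rw [h0] at this
    simp at this
    linarith
  have hN : DifferentiableOn ℂ NN U := by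
    apply NN_diff R U hRo hUo hA
    intro z hz u hu
    have h1 := half_le_zetaSup
    have h2 := zetaSup_le_one
    refine ⟨?_, ?_, ?_⟩
    · simp only [Complex.add_re, Complex.ofReal_re]
      have := hz.1; have := hu.1; linarith
    · simp only [Complex.add_re, Complex.ofReal_re]
      have := hz.2.1; have := hu.2; linarith
    · simp only [Complex.add_im, Complex.ofReal_im, zero_add]
      exact hz.2.2
  have haU : (aa : ℂ) ∈ U := by
    refine ⟨?_, ?_, ?_⟩
    · simp only [Complex.ofReal_re]; have := aa_nonneg; linarith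
    · simp only [Complex.ofReal_re]; have := aa_le; linarith
    · simp only [Complex.ofReal_im, abs_zero]; exact hρ
  set F : ℂ → ℂ := fun z => -dslope NN (aa : ℂ) z with hF
  have hFd : DifferentiableOn ℂ F U :=
    ((Complex.differentiableOn_dslope (hUo.mem_nhds haU)).2 hN).neg
  have hrect : (Icc (-(r / 2)) η ×ℂ Icc (-r) r) ⊆ U := by
    intro z hz
    rw [Complex.mem_reProdIm] at hz
    refine ⟨?_, ?_, ?_⟩
    · have := hz.1.1; linarith
    · have := hz.1.2; linarith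
    · have := abs_le.2 hz.2; linarith
  have hne : ∀ y : ℝ, (aa : ℂ) - ((η : ℂ) + (y : ℂ) * Complex.I) ≠ 0 := by
    intro y h
    have := congrArg Complex.re h
    simp at this
    exact hη2 (by linarith)
  set f : ℝ → ℂ := fun v => ((K1 v * Real.exp (aa * v) : ℝ) : ℂ) with hf
  have hlap := fun y : ℝ => laplace hB hL hE (η / 2) (by linarith)
    ((η : ℂ) + (y : ℂ) * Complex.I) (by simp; ring) (hne y)
  have hfint : IntegrableOn (fun v : ℝ => f v * Complex.exp (-(η : ℂ) * v)) (Ioi 0) := by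
    have h0 := (hlap 0).1
    have e : ((η : ℂ) + ((0 : ℝ) : ℂ) * Complex.I) = (η : ℂ) := by simp
    rw [e] at h0
    exact h0
  obtain ⟨C, hC⟩ := loc f r η δ hr0 hr1 hδ0 hδ1 hη0 hη1 hfint F (hFd.mono hrect) (by
    intro y _
    rw [(hlap y).2, hF]
    simp only
    have hzne : ((η : ℂ) + (y : ℂ) * Complex.I) ≠ (aa : ℂ) := fun h => hne y (by rw [h, sub_self])
    rw [dslope_of_ne _ hzne, slope_def_field]
    have h1 := hne y
    have h2 : ((η : ℂ) + (y : ℂ) * Complex.I) - (aa : ℂ) ≠ 0 := sub_ne_zero.2 hzne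
    rw [← neg_sub (aa : ℂ), div_neg, neg_neg])
  refine ⟨δ * r ^ 2 / 16, C, by positivity, hκ1, fun μ hμ => ?_⟩
  have hV : 0 < δ * μ := by positivity
  have hcast : (fun v : ℝ => f v * (Gs (δ * μ) μ v : ℂ)) =
      fun v : ℝ => ((K1 v * Real.exp (aa * v) * Gs (δ * μ) μ v : ℝ) : ℂ) := by
    funext v
    rw [hf]
    push_cast
    ring
  constructor
  · have h1 : IntegrableOn (fun v : ℝ => K1 v * Real.exp (aa * v) * Real.exp (-η * v)) (Ioi 0) := by
      have h2 := hfint.re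
      refine h2.congr ?_
      refine Eventually.of_forall fun v => ?_
      have h4 : Complex.exp (-(η : ℂ) * v) = ((Real.exp (-η * v) : ℝ) : ℂ) := by
        push_cast; rfl
      show RCLike.re (((K1 v * Real.exp (aa * v) : ℝ) : ℂ) * Complex.exp (-(η : ℂ) * v)) = _
      rw [h4, ← Complex.ofReal_mul]
      exact Complex.ofReal_re _
    have h3 : (fun v : ℝ => K1 v * Real.exp (aa * v) * Gs (δ * μ) μ v) =
        fun v : ℝ => (Gs (δ * μ) μ v * Real.exp (η * v)) *
          (K1 v * Real.exp (aa * v) * Real.exp (-η * v)) := by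
      funext v
      have : Real.exp (η * v) * Real.exp (-η * v) = 1 := by rw [← Real.exp_add]; simp
      calc K1 v * Real.exp (aa * v) * Gs (δ * μ) μ v
          = K1 v * Real.exp (aa * v) * Gs (δ * μ) μ v * 1 := by ring
        _ = _ := by rw [← this]; ring
    rw [h3]
    refine h1.bdd_mul (c := Real.exp (μ * η + (δ * μ) * η ^ 2 / 2)) ?_
      (Eventually.of_forall fun v => ?_)
    · exact ((Gs_cont _ _).mul (by fun_prop)).aestronglyMeasurable
    · rw [Real.norm_eq_abs, abs_of_nonneg (mul_nonneg (Gs_nonneg _ _ _) (Real.exp_pos _).le)]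
      exact gauss_mul_exp_le _ _ _ _ hV
  · have h1 := hC μ hμ
    rw [hcast, integral_complex_ofReal, Complex.norm_real, Real.norm_eq_abs] at h1
    exact h1

/-- **N7.** Gaussian averages of `K` are exponentially small. -/
theorem meanK (hB : PsiB) (hL : PsiLog) (hE : HEq) (hR : RealNZ) : MeanK := by
  intro δ hδ0 hδ1
  obtain ⟨c, C, hc0, hc1, hmain⟩ := main_part hB hL hE hR δ hδ0 hδ1
  obtain ⟨C₁, hC₁, hS⟩ := S_bound hB hL 1 one_pos
  have hS' : ∀ w : ℝ, 0 < w → |Sv w| * Real.exp (-w) ≤ C₁ := by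
    intro w hw
    refine (hS w hw).trans ?_
    have h1 : Real.exp (-(max (aa - 1) 0) * w) ≤ 1 := by
      rw [Real.exp_le_one_iff]
      have := le_max_right (aa - 1) 0
      nlinarith
    have h2 : Real.exp (-(max (aa - 1) 0) * w) / (1 + w) ≤ 1 := by
      rw [div_le_one (by linarith)]; linarith
    nlinarith
  set B₁ := ∫ w in Ioi (0 : ℝ), |gg w| with hB₁
  have hB₁0 : 0 ≤ B₁ := integral_nonneg fun w => abs_nonneg _
  refine ⟨c, C + B₁ * (Real.exp 1 * Real.exp 1) + 12 * C₁, hc0, fun μ hμ => ?_⟩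
  have hμ0 : 0 < μ := by linarith
  have hV : 0 < δ * μ := by positivity
  obtain ⟨hint, hbd⟩ := hmain μ hμ
  set G := Gs (δ * μ) μ with hG
  -- the remainder
  have hRb : ∀ v ∈ Ioi (1 : ℝ), ‖RR v * Real.exp (aa * v) * G v‖ ≤
      3 * C₁ * (Real.exp (-(μ / 8)) * Real.exp (-(1 / 4) * v)) := by
    intro v hv
    have hv1 : 1 < v := hv
    rw [Real.norm_eq_abs, abs_mul, abs_mul, abs_of_pos (Real.exp_pos _),
      abs_of_nonneg (Gs_nonneg _ _ _)]
    have h1 := (RR_int hB hL v hv1.le).2 C₁ hS'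
    have h2 : Real.exp (-v) * Real.exp (aa * v) ≤ Real.exp (-v / 2) := by
      rw [← Real.exp_add, Real.exp_le_exp]
      have := aa_le
      nlinarith
    have h3 := gauss_pt δ μ v hδ0 hδ1 hμ (by linarith)
    calc |RR v| * Real.exp (aa * v) * G v
        ≤ 3 * C₁ * Real.exp (-v) * Real.exp (aa * v) * G v := by
          apply mul_le_mul_of_nonneg_right _ (Gs_nonneg _ _ _)
          exact mul_le_mul_of_nonneg_right h1 (Real.exp_pos _).le
      _ = 3 * C₁ * ((Real.exp (-v) * Real.exp (aa * v)) * G v) := by ring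
      _ ≤ 3 * C₁ * (Real.exp (-v / 2) * G v) := by
          apply mul_le_mul_of_nonneg_left _ (by positivity)
          exact mul_le_mul_of_nonneg_right h2 (Gs_nonneg _ _ _)
      _ ≤ _ := mul_le_mul_of_nonneg_left h3 (by positivity)
  have hexpint : IntegrableOn (fun v : ℝ => 3 * C₁ * (Real.exp (-(μ / 8)) *
      Real.exp (-(1 / 4) * v))) (Ioi 1) :=
    ((integrableOn_exp_mul_Ioi (by norm_num) 1).const_mul _).const_mul _
  have hRint : IntegrableOn (fun v : ℝ => RR v * Real.exp (aa * v) * G v) (Ioi 1) := by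
    refine hexpint.mono' ?_ ((ae_restrict_iff' measurableSet_Ioi).2 (Eventually.of_forall hRb))
    exact ((RR_meas.mul (by fun_prop : Continuous fun v : ℝ => Real.exp (aa * v)).stronglyMeasurable).mul
      (Gs_cont _ _).stronglyMeasurable).aestronglyMeasurable
  have hR2 : |∫ v in Ioi (1 : ℝ), RR v * Real.exp (aa * v) * G v| ≤
      12 * C₁ * Real.exp (-(μ / 8)) := by
    rw [← Real.norm_eq_abs]
    refine (norm_integral_le_of_norm_le hexpint
      ((ae_restrict_iff' measurableSet_Ioi).2 (Eventually.of_forall hRb))).trans ?_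
    rw [integral_const_mul, integral_const_mul, integral_exp_mul_Ioi (by norm_num)]
    have h1 : -Real.exp (-(1 / 4) * 1) / -(1 / 4) ≤ 4 := by
      have : Real.exp (-(1 / 4) * 1) ≤ 1 := by rw [Real.exp_le_one_iff]; norm_num
      have e : -Real.exp (-(1 / 4) * 1) / -(1 / 4) = 4 * Real.exp (-(1 / 4) * 1) := by ring
      rw [e]; linarith
    have h2 : 0 ≤ 3 * C₁ * Real.exp (-(μ / 8)) := by positivity
    calc 3 * C₁ * (Real.exp (-(μ / 8)) * (-Real.exp (-(1 / 4) * 1) / -(1 / 4)))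
        = 3 * C₁ * Real.exp (-(μ / 8)) * (-Real.exp (-(1 / 4) * 1) / -(1 / 4)) := by ring
      _ ≤ 3 * C₁ * Real.exp (-(μ / 8)) * 4 := mul_le_mul_of_nonneg_left h1 h2
      _ = _ := by ring
  -- the interval `(0,1]`
  have hI1 : |∫ v in Ioc (0 : ℝ) 1, K1 v * Real.exp (aa * v) * G v| ≤
      B₁ * (Real.exp 1 * Real.exp 1) * Real.exp (-(μ / 2)) := by
    have : ∀ v ∈ Ioc (0 : ℝ) 1, ‖K1 v * Real.exp (aa * v) * G v‖ ≤
        B₁ * (Real.exp 1 * Real.exp 1) * Real.exp (-(μ / 2)) := by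
      intro v hv
      rw [Real.norm_eq_abs, abs_mul, abs_mul, abs_of_pos (Real.exp_pos _),
        abs_of_nonneg (Gs_nonneg _ _ _)]
      have h1 := K1_bound hB hL v hv.1.le
      have h2 : Real.exp (aa * v) ≤ Real.exp 1 := by
        rw [Real.exp_le_exp]
        have := aa_le; have := aa_nonneg; have := hv.1; have := hv.2
        nlinarith
      have h3 := gauss_pt1 δ μ v hδ0 hδ1 hμ hv.2
      calc |K1 v| * Real.exp (aa * v) * G v ≤ B₁ * Real.exp 1 * (Real.exp 1 * Real.exp (-(μ / 2))) := by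
            apply mul_le_mul _ h3 (Gs_nonneg _ _ _) (by positivity)
            exact mul_le_mul h1 h2 (Real.exp_pos _).le hB₁0
        _ = _ := by ring
    have h2 := norm_setIntegral_le_of_norm_le_const (μ := volume) (s := Ioc (0 : ℝ) 1)
      (by simp) this
    simpa using h2
  -- assembly
  have hsplit : ∫ v in Ioi (0 : ℝ), K1 v * Real.exp (aa * v) * G v =
      (∫ v in Ioc (0 : ℝ) 1, K1 v * Real.exp (aa * v) * G v) +
        ∫ v in Ioi (1 : ℝ), K1 v * Real.exp (aa * v) * G v := by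
    rw [← setIntegral_union (Ioc_disjoint_Ioi le_rfl) measurableSet_Ioi
      (hint.mono_set Ioc_subset_Ioi_self) (hint.mono_set (Ioi_subset_Ioi zero_le_one)),
      Ioc_union_Ioi_eq_Ioi zero_le_one]
  have hfin : ∫ v in Ioi (1 : ℝ), KK (Real.exp v) * Real.exp ((1 - zetaSup) * v) *
      Real.exp (-(v - μ) ^ 2 / (2 * (δ * μ))) =
      (∫ v in Ioi (1 : ℝ), K1 v * Real.exp (aa * v) * G v) +
        ∫ v in Ioi (1 : ℝ), RR v * Real.exp (aa * v) * G v := by
    rw [← integral_add (hint.mono_set (Ioi_subset_Ioi zero_le_one)) hRint]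
    refine setIntegral_congr_fun measurableSet_Ioi fun v hv => ?_
    have hv1 : 1 < v := hv
    show KK (Real.exp v) * Real.exp (aa * v) * G v = _
    rw [KK_eq hB hL v hv1.le]
    ring
  rw [hfin]
  set X0 := ∫ v in Ioi (0 : ℝ), K1 v * Real.exp (aa * v) * G v
  set X1 := ∫ v in Ioc (0 : ℝ) 1, K1 v * Real.exp (aa * v) * G v
  set X2 := ∫ v in Ioi (1 : ℝ), K1 v * Real.exp (aa * v) * G v
  set X3 := ∫ v in Ioi (1 : ℝ), RR v * Real.exp (aa * v) * G v
  have hX : X2 + X3 = X0 - X1 + X3 := by rw [hsplit]; ring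
  rw [hX]
  have b1 : Real.exp (-(μ / 2)) ≤ Real.exp (-c * μ) := by
    rw [Real.exp_le_exp]; nlinarith
  have b2 : Real.exp (-(μ / 8)) ≤ Real.exp (-c * μ) := by
    rw [Real.exp_le_exp]; nlinarith
  have b3 : B₁ * (Real.exp 1 * Real.exp 1) * Real.exp (-(μ / 2)) ≤
      B₁ * (Real.exp 1 * Real.exp 1) * Real.exp (-c * μ) :=
    mul_le_mul_of_nonneg_left b1 (by positivity)
  have b4 : 12 * C₁ * Real.exp (-(μ / 8)) ≤ 12 * C₁ * Real.exp (-c * μ) :=
    mul_le_mul_of_nonneg_left b2 (by positivity)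
  have b5 : |X0 - X1 + X3| ≤ |X0| + |X1| + |X3| := by
    have h1 := abs_add_le (X0 - X1) X3
    have h2 := abs_sub X0 X1
    linarith
  linarith

end

end Pool.Agent.H57R2.NicK
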